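import Mathlib
import Pool.Agent.Lib.helper4.Recon

namespace Pool.Agent.Results.MP_746574_co.Tree

open Pool.Agent.Lib.Recon

theorem result (V : Type) [Finite V] [Nonempty V] (G : SimpleGraph V) :
    (R G).IsTree ↔ ∃ n m : ℕ, Nonempty
      (G ≃g (⊥ : SimpleGraph (Fin n)).sum (completeBipartiteGraph (Fin 1) (Fin m))) := by
  constructor
  · intro hT
    rcases star_or_short G with ⟨c, hc⟩ | ⟨v, p, hp, -⟩
    swap
    · exact absurd hp (hT.isAcyclic p)
    obtain ⟨n, ⟨eA⟩⟩ := Finite.exists_equiv_fin {x // x ≠ c ∧ ¬ G.Adj c x}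
    obtain ⟨m, ⟨eB⟩⟩ := Finite.exists_equiv_fin {x // G.Adj c x}
    let f : Fin n ⊕ (Fin 1 ⊕ Fin m) → V :=
      Sum.elim (fun i => (eA.symm i).1) (Sum.elim (fun _ => c) fun j => (eB.symm j).1)
    have hA := fun i => (eA.symm i).2
    have hB := fun j => (eB.symm j).2
    have s : ∀ x y, G.Adj x y → G.Adj y x := fun _ _ h => h.symm
    have i : ∀ x, ¬ G.Adj x x := fun _ h => h.ne rfl
    have bij : Function.Bijective f := by
      constructor
      · rintro (a | a | a) (b | b | b) e <;> simp only [f, Sum.elim_inl, Sum.elim_inr] at e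
        · rw [eA.symm.injective (Subtype.ext e)]
        · exact absurd e (hA a).1
        · exact absurd (e ▸ hB b) (hA a).2
        · exact absurd e.symm (hA b).1
        · rw [Subsingleton.elim a b]
        · exact absurd e (hB b).ne
        · exact absurd (e ▸ hB a) (hA b).2
        · exact absurd e.symm (hB a).ne
        · rw [eB.symm.injective (Subtype.ext e)]
      · intro x
        by_cases h1 : x = c
        · exact ⟨.inr (.inl 0), h1.symm⟩
        by_cases h2 : G.Adj c x
        exacts [⟨.inr (.inr (eB ⟨x, h2⟩)), by simp [f]⟩, ⟨.inl (eA ⟨x, h1, h2⟩), by simp [f]⟩]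
    refine ⟨n, m, ⟨SimpleGraph.Iso.symm ⟨Equiv.ofBijective f bij, ?_⟩⟩⟩
    rintro (a | a | a) (b | b | b) <;> simp [f]
    · intro e
      have := hc _ _ e; have := hA a; have := hA b; grind
    · exact fun e => (hA a).2 e.symm
    · intro e
      have := hc _ _ e; have := hA a; have := (hB b).ne; grind
    · exact (hA b).2
    · exact hB b
    · intro e
      have := hc _ _ e; have := hA b; have := (hB a).ne; grind
    · exact (hB a).symm
    · intro e
      have := hc _ _ e; have := (hB a).ne; have := (hB b).ne; grind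
  · rintro ⟨n, m, ⟨φ⟩⟩
    refine star_tree (c := φ.symm (.inr (.inl 0))) fun a b e => ?_
    have e' := φ.map_adj_iff.2 e
    have k : ∀ x, φ x = .inr (.inl 0) → x = φ.symm (.inr (.inl 0)) := fun x h => by
      rw [← h, φ.symm_apply_apply]
    refine Or.imp (k a) (k b) ?_
    revert e'
    rcases φ a with x | x | x <;> rcases φ b with y | y | y <;> simp [Subsingleton.elim _ (0 : Fin 1)]

end Pool.Agent.Results.MP_746574_co.Tree
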